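import Mathlib
import Pool.Agent.Helper270.FIN

set_option autoImplicit false

/-! Free indecomposability and splittings over the integers are undecidable for finitely generated
subgroups of the mapping class group of the closed orientable surface of genus `g`, for every
`g ≥ 3`. -/

namespace Pool.Agent.Results.MP_68e4fd_al.Undecidable

open Pool.Agent.Helper270.MCG Pool.Agent.Helper270.Split Pool.Agent.Helper270.FIN

/-- Taking the vertex set of the tree in `Type` is no restriction in `SplitsOverZ`. -/
theorem splitsOverZ_of_large {G : Type} [Group G] {V : Type*} [MulAction G V] {T : SimpleGraph V}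
    (h1 : T.IsTree) (h2 : ∀ (g : G) (v w : V), T.Adj v w → T.Adj (g • v) (g • w))
    (h3 : ∀ (g : G) (v w : V), T.Adj v w → ¬ (g • v = w ∧ g • w = v))
    (h4 : ∀ v : V, ∃ g : G, g • v ≠ v)
    (h5 : ∀ v w v' w' : V, T.Adj v w → T.Adj v' w' →
      ∃ g : G, (g • v = v' ∧ g • w = w') ∨ (g • v = w' ∧ g • w = v'))
    (h6 : ∀ v w : V, T.Adj v w → Nonempty
      (↥(MulAction.stabilizer G v ⊓ MulAction.stabilizer G w) ≃* Multiplicative ℤ)) :
    SplitsOverZ G := by
  obtain ⟨x, y, hxy⟩ : ∃ x y : V, T.Adj x y := by
    obtain ⟨x⟩ := h1.connected.nonempty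
    obtain ⟨y, hy⟩ : ∃ y : V, y ≠ x := by
      obtain ⟨g, hg⟩ := h4 x
      exact ⟨_, hg⟩
    obtain ⟨p⟩ := h1.connected.preconnected x y
    cases p with
    | cons hadj _ => exact ⟨_, _, hadj⟩
    | nil => exact absurd rfl hy
  have hsurj : Function.Surjective
      (fun p : G ⊕ G => (Sum.elim (fun g => g • x) (fun g => g • y) p : V)) := by
    intro v
    obtain ⟨w, hvw⟩ : ∃ w, T.Adj v w := by
      by_cases hv : v = x
      · exact ⟨y, hv ▸ hxy⟩
      · obtain ⟨p⟩ := h1.connected.preconnected v x
        cases p with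
        | nil => exact absurd rfl hv
        | cons hadj _ => exact ⟨_, hadj⟩
    obtain ⟨g, ⟨h1, _⟩ | ⟨_, h2⟩⟩ := h5 x y v w hxy hvw
    · exact ⟨Sum.inl g, h1⟩
    · exact ⟨Sum.inr g, h2⟩
  have : Small.{0} V := small_of_surjective hsurj
  let e : V ≃ Shrink.{0} V := equivShrink V
  let act : MulAction G (Shrink.{0} V) :=
    { smul := fun g v => e (g • e.symm v)
      one_smul := fun v => by
        change e ((1 : G) • e.symm v) = v
        rw [one_smul, e.apply_symm_apply]
      mul_smul := fun g g' v => by
        change e ((g * g') • e.symm v) = e (g • e.symm (e (g' • e.symm v)))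
        rw [mul_smul, e.symm_apply_apply] }
  have hsm : ∀ (g : G) (v : Shrink.{0} V), e.symm (g • v) = g • e.symm v :=
    fun g v => e.symm_apply_apply _
  have heq : ∀ (g : G) (v w : Shrink.{0} V), g • v = w ↔ g • e.symm v = e.symm w := by
    intro g v w
    rw [← hsm, e.symm.injective.eq_iff]
  refine ⟨Shrink.{0} V, act, T.comap e.symm, ?_, ?_, ?_, ?_, ?_, ?_⟩
  · exact (SimpleGraph.Iso.comap e.symm T).isTree_iff.mpr h1
  · intro g v w hvw
    change T.Adj (e.symm (g • v)) (e.symm (g • w))
    rw [hsm, hsm]; exact h2 g _ _ hvw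
  · intro g v w hvw
    rw [heq, heq]; exact h3 g _ _ hvw
  · intro v
    obtain ⟨g, hg⟩ := h4 (e.symm v)
    exact ⟨g, fun hh => hg ((heq _ _ _).mp hh)⟩
  · intro v w v' w' hvw hvw'
    obtain ⟨g, hg⟩ := h5 _ _ _ _ hvw hvw'
    refine ⟨g, ?_⟩
    rw [heq, heq, heq, heq]; exact hg
  · intro v w hvw
    obtain ⟨f⟩ := h6 _ _ hvw
    have hS : MulAction.stabilizer G v ⊓ MulAction.stabilizer G w =
        MulAction.stabilizer G (e.symm v) ⊓ MulAction.stabilizer G (e.symm w) := by
      ext g
      rw [Subgroup.mem_inf, Subgroup.mem_inf, MulAction.mem_stabilizer_iff,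
        MulAction.mem_stabilizer_iff, MulAction.mem_stabilizer_iff, MulAction.mem_stabilizer_iff,
        heq, heq]
    exact ⟨(MulEquiv.subgroupCongr hS).trans f⟩

/-- For every genus `g ≥ 3` and every finite generating tuple of the mapping class group, it is
undecidable whether the subgroup generated by a given finite list of words is freely
indecomposable, and whether it splits over the infinite cyclic group. The second part says that
the same holds for every finite tuple which generates a subgroup containing a certain finite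
set. -/
theorem result :
    (∀ g : ℕ, 3 ≤ g → ∀ (k : ℕ) (S : Fin k → MappingClassGroup g),
      Subgroup.closure (Set.range S) = ⊤ →
        (¬ ComputablePred fun ws : List (List (Fin k × Bool)) =>
          FreelyIndecomposable (subgroupOfWords S ws)) ∧
        (¬ ComputablePred fun ws : List (List (Fin k × Bool)) =>
          SplitsOverZ (subgroupOfWords S ws))) ∧
    (∀ g : ℕ, 3 ≤ g → ∃ E : Set (MappingClassGroup g), E.Finite ∧
      ∀ (k : ℕ) (S : Fin k → MappingClassGroup g), E ⊆ Subgroup.closure (Set.range S) →
        (¬ ComputablePred fun ws : List (List (Fin k × Bool)) =>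
          FreelyIndecomposable (subgroupOfWords S ws)) ∧
        (¬ ComputablePred fun ws : List (List (Fin k × Bool)) =>
          SplitsOverZ (subgroupOfWords S ws))) := by
  have key : ∀ g : ℕ, 3 ≤ g → ∃ E : Set (MappingClassGroup g), E.Finite ∧
      ∀ (k : ℕ) (S : Fin k → MappingClassGroup g), E ⊆ Subgroup.closure (Set.range S) →
        (¬ ComputablePred fun ws : List (List (Fin k × Bool)) =>
          FreelyIndecomposable (subgroupOfWords S ws)) ∧
        (¬ ComputablePred fun ws : List (List (Fin k × Bool)) =>
          SplitsOverZ (subgroupOfWords S ws)) := by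
    intro g hg
    obtain ⟨k, rfl⟩ := Nat.exists_eq_add_of_le hg
    exact undecidable fun m => Pool.Agent.Helper270.EX.frame m k
  refine ⟨fun g hg k S hS => ?_, key⟩
  obtain ⟨E, _, hE⟩ := key g hg
  exact hE k S (by rw [hS]; exact Set.subset_univ E)

end Pool.Agent.Results.MP_68e4fd_al.Undecidable
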